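import Pool.Agent.Lib.MP_3d9a2b_pr.V.Main

set_option autoImplicit false

namespace Pool.Agent.Results.MP_3d9a2b_pr.NearOne

open MeasureTheory ProbabilityTheory Filter Topology Pool.Agent.Lib.MP_3d9a2b_pr

/-- Asymptotics of the slope `m_α` of the critical line of the continuum copolymer model as
`α → 1`: `3 / 4 + c (1 - α) ^ (1 / 4) < m_α ≤ 3 / 4 + K (1 - α) ^ (1 / 4)`. For all `α < 1` close
to `1`, in every realisation of the model, the free energy (the limit of `(1 / t) E log Z t`) is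
positive at `(lam, h)` when `h ≤ (3 / 4 + c (1 - α) ^ (1 / 4)) lam` and exists and vanishes when
`h ≥ (3 / 4 + K (1 - α) ^ (1 / 4)) lam`. -/
theorem result : ∃ c K α₀ : ℝ, 0 < c ∧ 0 < K ∧ 0 < α₀ ∧ α₀ < 1 ∧ ∀ α : ℝ,
    α₀ ≤ α → α < 1 →
    ∀ {Ω Ω' : Type} [MeasurableSpace Ω] [MeasurableSpace Ω'] (P : Measure Ω) (P' : Measure Ω')
      [IsProbabilityMeasure P] [IsProbabilityMeasure P'] (M : Model α P P') (lam h : ℝ),
      0 < lam → 0 ≤ h →
      (∀ t : ℝ, 0 ≤ t → Integrable (fun ω => Real.log (M.Z lam h t ω)) P) ∧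
      (h ≤ (3 / 4 + c * (1 - α) ^ (1 / 4 : ℝ)) * lam →
        ∃ c' > 0, ∀ᶠ t in atTop, c' ≤ 1 / t * ∫ ω, Real.log (M.Z lam h t ω) ∂P) ∧
      ((3 / 4 + K * (1 - α) ^ (1 / 4 : ℝ)) * lam ≤ h →
        Tendsto (fun t => 1 / t * ∫ ω, Real.log (M.Z lam h t ω) ∂P) atTop (𝓝 0)) :=
  slope_near_one

end Pool.Agent.Results.MP_3d9a2b_pr.NearOne
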