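import Pool.Agent.Lib.MP_3d9a2b_pr.U.Slope

set_option autoImplicit false

namespace Pool.Agent.Results.MP_3d9a2b_pr.SmallAlpha

open MeasureTheory ProbabilityTheory Filter Topology Pool.Agent.Lib.MP_3d9a2b_pr

/-- Asymptotics of the slope `m_α` of the critical line of the continuum copolymer model as
`α → 0`: `1 / (1 + α) < m_α ≤ 1 / (1 + α) + K α ^ 2 log (1 / α)`. For all small `α`, in every
realisation of the model, the free energy (the limit of `(1 / t) E log Z t`) is positive at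
`(lam, h)` when `h ≤ lam / (1 + α)` and exists and vanishes when
`h ≥ (1 / (1 + α) + K α ^ 2 log (1 / α)) lam`. -/
theorem result : ∃ K α₀ : ℝ, 0 < K ∧ 0 < α₀ ∧ α₀ < 1 ∧ ∀ α : ℝ, 0 < α → α ≤ α₀ →
    ∀ {Ω Ω' : Type} [MeasurableSpace Ω] [MeasurableSpace Ω'] (P : Measure Ω) (P' : Measure Ω')
      [IsProbabilityMeasure P] [IsProbabilityMeasure P'] (M : Model α P P') (lam h : ℝ),
      0 < lam → 0 ≤ h →
      (∀ t : ℝ, 0 ≤ t → Integrable (fun ω => Real.log (M.Z lam h t ω)) P) ∧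
      (h ≤ 1 / (1 + α) * lam →
        ∃ c > 0, ∀ᶠ t in atTop, c ≤ 1 / t * ∫ ω, Real.log (M.Z lam h t ω) ∂P) ∧
      ((1 / (1 + α) + K * α ^ 2 * Real.log (1 / α)) * lam ≤ h →
        Tendsto (fun t => 1 / t * ∫ ω, Real.log (M.Z lam h t ω) ∂P) atTop (𝓝 0)) :=
  slope_asymp

end Pool.Agent.Results.MP_3d9a2b_pr.SmallAlpha
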